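import Pool.Agent.MWK.Stmts

/-!
# MWK, row SFB: type F, from a disagreement to the word bit
-/

namespace Pool.Agent.MWK.H14

open Pool.Agent.Helper14_MV Pool.Agent.Helper2_MV

theorem Chc.sub {w : List ℕ} {p p' cs : List ℕ} (h : Chc w p cs) (hp : ∀ z ∈ p', z ∈ p) :
    Chc w p' cs := by
  cases cs with
  | nil => exact fun z hz => h z (hp z hz)
  | cons c cs => exact ⟨fun z hz => h.1 z (hp z hz), h.2.1, h.2.2⟩

/-- the positions of `x`, `y` and of the chain -/
theorem posn (hCVT : CvtStmt) {w : List ℕ} {x y : ℕ} {cs : List ℕ} (hxy : x ∈ pre w y)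
    (hy : y ∈ w) (hc : Chc w [x, y] cs) :
    ∃ U₁ U₂ B : List ℕ, w = U₁ ++ x :: U₂ ++ y :: B ∧ x ∉ U₁ ∧ x ∉ U₂ ∧ y ∉ U₁ ∧ y ∉ U₂ ∧
      (∀ c ∈ cs, c ∉ U₁ ∧ c ∉ U₂) ∧ Chb [x, y] cs B ∧ x ≠ y := by
  obtain ⟨B, hB⟩ := mem_split hy
  obtain ⟨U₁, U₂, hU, hx1⟩ := List.eq_append_cons_of_mem hxy
  have hyA : y ∉ pre w y := not_mem_pre w y
  have hxne : x ≠ y := by
    rintro rfl
    exact hyA hxy
  have hcnt : (pre w y).count x ≤ 1 := by
    cases cs with
    | nil =>
      have h1 : w.count x = 1 := hc x (by simp)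
      have h2 := count_pre_le w x y
      omega
    | cons c cs =>
      have h1 : (pre w c).count x = 1 := hc.1 x (by simp)
      have h2 : y ∈ pre w c := hc.mem_pre y (by simp) c (by simp)
      have h3 := count_pre_mono h2 x
      omega
  have hx2 : x ∉ U₂ := by
    intro h
    rw [hU, List.count_append, List.count_cons_self] at hcnt
    have h1 : 0 < U₂.count x := List.count_pos_iff.2 h
    omega
  have hcA : ∀ c ∈ cs, c ∉ pre w y ∧ c ≠ y := by
    intro c hcm
    have h1 : y ∈ pre w c := hc.mem_pre y (by simp) c hcm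
    refine ⟨pre_asymm h1, ?_⟩
    rintro rfl
    exact not_mem_pre w c h1
  have hy1 : y ∉ U₁ := fun h => hyA (by rw [hU]; simp [h])
  have hy2 : y ∉ U₂ := fun h => hyA (by rw [hU]; simp [h])
  have hChb : Chb [x, y] cs B := by
    refine hCVT cs [x, y] w (pre w y ++ [y]) B (by simpa using hB) ?_ ?_ hc
    · intro z hz
      rw [List.mem_cons, List.mem_singleton] at hz
      rcases hz with rfl | rfl
      · rw [List.count_append]
        have h1 : (pre w y).count z = 1 := by
          have h2 : 0 < (pre w y).count z := List.count_pos_iff.2 hxy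
          omega
        have h2 : [y].count z = 0 := List.count_eq_zero.2 (by simpa using hxne)
        omega
      · rw [List.count_append]
        have h1 : (pre w z).count z = 0 := List.count_eq_zero.2 hyA
        rw [h1]
        simp
    · intro c hcm h
      rcases List.mem_append.1 h with h | h
      · exact (hcA c hcm).1 h
      · exact (hcA c hcm).2 (by simpa using h)
  refine ⟨U₁, U₂, B, ?_, hx1, hx2, hy1, hy2, ?_, hChb, hxne⟩
  · rw [← hU]
    exact hB
  · intro c hcm
    have h1 := (hcA c hcm).1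
    rw [hU] at h1
    constructor
    · intro h
      exact h1 (by simp [h])
    · intro h
      exact h1 (by simp [h])

theorem flatMap_nil_of {g : ℕ → List ℕ} {U : List ℕ} (h : ∀ z ∈ U, g z = []) :
    U.flatMap g = [] := by
  rw [List.flatMap_eq_nil_iff]
  exact h

/-- reading a word -/
theorem readw (hCVT : CvtStmt) (hCRD : CrdStmt) {θ : FIC} (hθ : Kc θ) {w : List ℕ} {x y : ℕ}
    {cs : List ℕ} (hxy : x ∈ pre w y) (hy : y ∈ w) (hc : Chc w [x, y] cs) {g : ℕ → List ℕ}
    (hg : ∀ z, z ∉ x :: y :: cs → g z = []) (P : List ℕ)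
    (hOk : Ok (P ++ g x ++ g y) (g x ++ g y) (cs.map g)) :
    RR θ (P ++ w.flatMap g) (P ++ g x ++ g y ++ (cs.map g).flatten) := by
  obtain ⟨U₁, U₂, B, hw, hx1, hx2, hy1, hy2, hcU, hChb, -⟩ := posn hCVT hxy hy hc
  have e1 : U₁.flatMap g = [] := by
    refine flatMap_nil_of fun z hz => hg z fun h => ?_
    rcases List.mem_cons.1 h with rfl | h
    · exact hx1 hz
    rcases List.mem_cons.1 h with rfl | h
    · exact hy1 hz
    exact (hcU z h).1 hz
  have e2 : U₂.flatMap g = [] := by
    refine flatMap_nil_of fun z hz => hg z fun h => ?_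
    rcases List.mem_cons.1 h with rfl | h
    · exact hx2 hz
    rcases List.mem_cons.1 h with rfl | h
    · exact hy2 hz
    exact (hcU z h).2 hz
  have e3 : P ++ w.flatMap g = P ++ g x ++ g y ++ B.flatMap g := by
    rw [hw]
    simp only [List.flatMap_append, List.flatMap_cons, e1, e2, List.nil_append, List.append_nil,
      List.append_assoc]
  rw [e3]
  refine hCRD θ hθ g cs [x, y] B (P ++ g x ++ g y) hChb ?_ ?_
  · intro z _
    by_cases h : z ∈ x :: y :: cs
    · rcases List.mem_cons.1 h with rfl | h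
      · right; left; simp
      rcases List.mem_cons.1 h with rfl | h
      · right; left; simp
      · right; right; left; exact h
    · exact Or.inl (hg z h)
  · have e4 : [x, y].flatMap g = g x ++ g y := by simp
    rw [e4]
    exact hOk

theorem sfb (_hFRE : FreStmt) (hCVT : CvtStmt) (hCRD : CrdStmt) (hASG : AsgStmt)
    (hOKM : OkmStmt) : SfbStmt := by
  intro θ hθ m u v x y cs huv hlen hxu hyv hyu hxv hcu hcv P X Y qs R hqs hOk
  have hcv' : Chc v [y, x] cs := Chc.sub hcv (by
    intro z hz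
    simp only [List.mem_cons, List.not_mem_nil, or_false] at hz ⊢
    exact hz.symm)
  have hne : x ≠ y := by
    rintro rfl
    exact not_mem_pre u x hxu
  have hnd : (x :: y :: cs).Nodup := by
    refine List.nodup_cons.2 ⟨?_, List.nodup_cons.2 ⟨?_, Chc.nodup hcu⟩⟩
    · intro h
      rcases List.mem_cons.1 h with h | h
      · exact hne h
      · exact Chc.not_mem hcu (z := x) (by simp) h
    · exact Chc.not_mem hcu (z := y) (by simp)
  obtain ⟨g, hg1, hg2⟩ := hASG (x :: y :: cs) (X :: Y :: qs) hnd (by simp [hlen, hqs])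
  simp only [List.map_cons, List.cons.injEq] at hg1
  obtain ⟨hgx, hgy, hgcs⟩ := hg1
  have h1 : RR θ (P ++ u.flatMap g) (P ++ g x ++ g y ++ (cs.map g).flatten) := by
    refine readw hCVT hCRD hθ hxu hyu hcu hg2 P ?_
    rw [hgx, hgy, hgcs]
    exact hOk
  have h2 : RR θ (P ++ v.flatMap g) (P ++ g y ++ g x ++ (cs.map g).flatten) := by
    refine readw hCVT hCRD hθ hyv hxv hcv' ?_ P ?_
    · intro z hz
      refine hg2 z fun h => hz ?_
      simp only [List.mem_cons] at h ⊢
      tauto
    · rw [hgx, hgy, hgcs]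
      refine hOKM qs (P ++ X ++ Y) (P ++ Y ++ X) (X ++ Y) (Y ++ X) hOk ?_ ?_
      · intro l
        simp only [List.count_append]
        omega
      · intro z hz
        rw [List.mem_append] at hz ⊢
        exact hz.symm
  rw [hgx, hgy, hgcs] at h1 h2
  have h3 : RR θ (P ++ u.flatMap g) (P ++ v.flatMap g) := (RR.refl P).append (RR.sub g huv)
  have h4 : RR θ (P ++ X ++ Y ++ qs.flatten) (P ++ Y ++ X ++ qs.flatten) :=
    θ.trans (θ.trans h1.symm h3) h2
  exact h4.append (RR.refl R)

end Pool.Agent.MWK.H14
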